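import Pool.Agent.R596.FcMain

/-!
# Compact metrizable separability does not imply that countable unions of countable sets are
countable

There is a countable transitive model of ZF in which every compact metrizable space is separable,
but the union of some countable family of countable sets is uncountable. The definitions are in
`Pool.Agent.R596.FcDefs`.
-/

set_option autoImplicit false

namespace Pool.Agent.Results.MP_b83852_lc.SeparableNotCUC

open Pool.Agent.W868 Pool.Agent.R596Fc

theorem result : ∃ M : Set ZFSet.{0}, M.Countable ∧ IsZF M ∧ MCS M ∧ ¬ CUC M :=
  Pool.Agent.R596.FC.main

end Pool.Agent.Results.MP_b83852_lc.SeparableNotCUC
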